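import Mathlib

set_option autoImplicit false
open Finset Matrix
open scoped Classical ComplexConjugate

namespace Pool.Agent.H.MP_725651_al

variable {F : Type} [Field F] {n : ℕ}

abbrev M (F : Type) (n : ℕ) := Matrix (Fin n) (Fin n) F

theorem fac (D : M F n) : ∃ (U V' : Matrix (Fin n) (Fin D.rank) F)
    (V U' : Matrix (Fin D.rank) (Fin n) F), D = U * V ∧ U' * U = 1 ∧ V * V' = 1 := by
  let W := LinearMap.range D.mulVecLin
  let e : W ≃ₗ[F] (Fin D.rank → F) := (Module.finBasis F W).equivFun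
  let u : (Fin D.rank → F) →ₗ[F] (Fin n → F) := W.subtype ∘ₗ e.symm.toLinearMap
  let v : (Fin n → F) →ₗ[F] (Fin D.rank → F) := e.toLinearMap ∘ₗ D.mulVecLin.rangeRestrict
  obtain ⟨u', hu⟩ := u.exists_leftInverse_of_injective (LinearMap.ker_eq_bot.2
    (W.subtype_injective.comp e.symm.injective))
  obtain ⟨v', hv⟩ := v.exists_rightInverse_of_surjective (LinearMap.range_eq_top.2
    (e.surjective.comp D.mulVecLin.surjective_rangeRestrict))
  refine ⟨LinearMap.toMatrix' u, LinearMap.toMatrix' v', LinearMap.toMatrix' v,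
    LinearMap.toMatrix' u', ?_, ?_, ?_⟩
  · rw [← LinearMap.toMatrix'_comp]
    have : u ∘ₗ v = Matrix.toLin' D := by
      apply LinearMap.ext; intro x; simp [u, v]
    rw [this, LinearMap.toMatrix'_toLin']
  · rw [← LinearMap.toMatrix'_comp, hu, LinearMap.toMatrix'_id]
  · rw [← LinearMap.toMatrix'_comp, hv, LinearMap.toMatrix'_id]

theorem rank_pos {D : M F n} (h : D ≠ 0) : 1 ≤ D.rank := by
  obtain ⟨U, V', V, U', h1, -, -⟩ := fac D
  by_contra! h2
  apply h
  rw [h1]
  ext i j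
  haveI : IsEmpty (Fin D.rank) := ⟨fun x => by have := x.2; omega⟩
  simp [Matrix.mul_apply]

variable [Fintype F]

theorem card_M (a b : ℕ) : Fintype.card (Matrix (Fin a) (Fin b) F) = Fintype.card F ^ (a * b) := by
  rw [Fintype.card_congr (Matrix.of (m := Fin a) (n := Fin b) (α := F)).symm]
  simp [← pow_mul, mul_comm]

theorem ker_card (ξ D : M F n) : #{A : M F n | ξ * A * D = 0} *
    Fintype.card F ^ (ξ.rank * D.rank) ≤ Fintype.card (M F n) := by
  obtain ⟨U, V', V, U', h1, h2, h3⟩ := fac ξ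
  obtain ⟨S, T', T, S', h4, h5, h6⟩ := fac D
  rw [← card_M, ← card_univ, ← card_product, ← card_univ]
  refine card_le_card_of_injOn (fun p => p.1 + V' * p.2 * S') (fun _ _ => mem_univ _) ?_
  have k : ∀ A : M F n, ξ * A * D = 0 → V * A * S = 0 := fun A hA => by
    have : U' * (U * V * A * (S * T)) * T' = 0 := by rw [← h1, ← h4, hA]; simp
    simpa only [← Matrix.mul_assoc, h2, Matrix.one_mul, Matrix.mul_assoc _ T T', h6,
      Matrix.mul_one] using this
  have k2 : ∀ (A : M F n) C, ξ * A * D = 0 → V * (A + V' * C * S') * S = C := fun A C hA => by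
    rw [Matrix.mul_add, Matrix.add_mul, k A hA, zero_add]
    simp only [← Matrix.mul_assoc, h3, Matrix.one_mul, Matrix.mul_assoc _ S' S, h5, Matrix.mul_one]
  rintro ⟨A, C⟩ hp ⟨A', C'⟩ hp' e
  simp only [coe_product, Set.mem_prod, mem_coe, mem_filter, mem_univ, true_and, and_true] at hp hp'
  have hC : C = C' := by rw [← k2 A C hp, ← k2 A' C' hp']; exact congrArg (V * · * S) e
  subst hC
  exact Prod.ext (add_right_cancel e) rfl

theorem rank_card (j : ℕ) : #{D : M F n | D.rank = j} ≤ (Fintype.card F ^ (2 * n)) ^ j := by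
  have : ({D : M F n | D.rank = j} : Finset _) ⊆ univ.image
      fun p : Matrix (Fin n) (Fin j) F × Matrix (Fin j) (Fin n) F => p.1 * p.2 := by
    intro D hD
    obtain rfl := (mem_filter.1 hD).2
    obtain ⟨U, V', V, U', h1, -, -⟩ := fac D
    exact mem_image.2 ⟨(U, V), mem_univ _, h1.symm⟩
  refine (card_le_card this).trans (card_image_le.trans (le_of_eq ?_))
  rw [card_univ, Fintype.card_prod, card_M, card_M, ← pow_add, ← pow_mul]
  congr 1; ring

theorem q2 : 2 ≤ Fintype.card F := Fintype.one_lt_card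

theorem rank_le_card (hn : 1 ≤ n) (s : ℕ) :
    #{D : M F n | D.rank ≤ s} ≤ 2 * (Fintype.card F ^ (2 * n)) ^ s := by
  have : ({D : M F n | D.rank ≤ s} : Finset _) =
      (range (s + 1)).biUnion fun j => {D : M F n | D.rank = j} := by
    ext D; simp [Nat.lt_succ_iff]
  rw [this]
  refine card_biUnion_le.trans ((sum_le_sum fun j _ => rank_card j).trans ?_)
  have h : 2 ≤ Fintype.card F ^ (2 * n) := q2.trans (Nat.le_self_pow (by omega) _)
  have := Nat.geomSum_lt h (s := range s) (n := s) fun k hk => mem_range.1 hk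
  rw [sum_range_succ]
  omega

theorem gl_card : (Fintype.card (M F n) : ℝ) ≤ 4 * Fintype.card (GL (Fin n) F) := by
  have hq : (2 : ℝ) ≤ Fintype.card F := by exact_mod_cast q2
  rw [← Nat.card_eq_fintype_card (α := GL (Fin n) F), card_GL_field, card_M]
  generalize Fintype.card F = q at hq
  have hq' : 2 ≤ q := by exact_mod_cast hq
  have h1 : ∀ m : ℕ, 1 / 4 + (1 / 2 : ℝ) ^ (m + 2) ≤ ∏ j ∈ range (m + 1), (1 - (1 / 2 : ℝ) ^ (j + 1)) := by
    intro m
    induction m with
    | zero => norm_num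
    | succ m ih =>
      rw [prod_range_succ]
      have a : (0 : ℝ) < (1 / 2) ^ m := by positivity
      have b : (1 / 2 : ℝ) ^ m ≤ 1 := pow_le_one₀ (by norm_num) (by norm_num)
      refine le_trans ?_ (mul_le_mul_of_nonneg_right ih (by simp only [pow_succ]; nlinarith))
      simp only [pow_succ]
      nlinarith
  have h2 : (1 / 4 : ℝ) ≤ ∏ j ∈ range n, (1 - (1 / 2 : ℝ) ^ (j + 1)) := by
    rcases n with _ | m
    · norm_num
    · exact le_trans (le_add_of_nonneg_right (by positivity)) (h1 m)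
  have h3 : ∏ j ∈ range n, ((q : ℝ) ^ n * (1 - (1 / 2 : ℝ) ^ (j + 1))) ≤
      ∏ j ∈ range n, ((q ^ n - q ^ (n - 1 - j) : ℕ) : ℝ) := by
    refine prod_le_prod (fun j _ => mul_nonneg (by positivity)
      (sub_nonneg.2 (pow_le_one₀ (by norm_num) (by norm_num)))) fun j hj => ?_
    have hj := mem_range.1 hj
    rw [Nat.cast_sub (Nat.pow_le_pow_right (by omega) (by omega)), mul_sub, mul_one]
    push_cast
    refine sub_le_sub_left ?_ _
    rw [_root_.one_div_pow, mul_one_div, le_div_iff₀ (by positivity)]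
    calc (q : ℝ) ^ (n - 1 - j) * 2 ^ (j + 1) ≤ q ^ (n - 1 - j) * q ^ (j + 1) := by gcongr
      _ = _ := by rw [← pow_add]; congr 1; omega
  rw [prod_range_reflect (fun j => ((q ^ n - q ^ j : ℕ) : ℝ)), prod_mul_distrib, prod_const,
    card_range, ← pow_mul] at h3
  rw [← prod_range (fun j => q ^ n - q ^ j), Nat.cast_prod, Nat.cast_pow]
  have : (0 : ℝ) < q ^ (n * n) := by positivity
  nlinarith

noncomputable def ch (z : M F n) : ℂ := AddChar.FiniteField.primitiveChar_to_Complex F z.trace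

theorem ch_add (a b : M F n) : ch (a + b) = ch a * ch b := by
  simp [ch, AddChar.map_add_eq_mul]

theorem ch_zero : ch (0 : M F n) = 1 := by simp [ch]

theorem ch_neg (a : M F n) : ch (-a) = conj (ch a) := by simp [ch, AddChar.map_neg_eq_conj]

theorem ch_norm (a : M F n) : ‖ch a‖ = 1 := AddChar.norm_apply _ _

theorem ch_comm (a b : M F n) : ch (a * b) = ch (b * a) := by unfold ch; rw [trace_mul_comm]

theorem ch_sum {ι : Type} (s : Finset ι) (f : ι → M F n) : ch (∑ i ∈ s, f i) = ∏ i ∈ s, ch (f i) := by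
  induction s using Finset.induction_on with
  | empty => simp [ch_zero]
  | insert a s ha ih => rw [sum_insert ha, prod_insert ha, ch_add, ih]

theorem ch_orth (z : M F n) :
    ∑ B : M F n, ch (B * z) = if z = 0 then (Fintype.card (M F n) : ℂ) else 0 := by
  split_ifs with h
  · simp [h, ch_zero]
  obtain ⟨i, j, hij⟩ : ∃ i j, z i j ≠ 0 := by
    by_contra! hc
    exact h (by ext i j; exact hc i j)
  obtain ⟨t, ht⟩ : ∃ t, AddChar.FiniteField.primitiveChar_to_Complex F (z i j * t) ≠ 1 := by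
    by_contra! hc
    exact AddChar.FiniteField.primitiveChar_to_Complex_isPrimitive F hij (by ext t; simpa using hc t)
  have h1 : ch (single j i t * z) ≠ 1 := by
    unfold ch
    rwa [trace_single_mul, smul_eq_mul, mul_comm]
  have h2 : ∑ B : M F n, ch (B * z) = ch (single j i t * z) * ∑ B : M F n, ch (B * z) := by
    rw [mul_sum, ← Equiv.sum_comp (Equiv.addLeft (single j i t))]
    simp only [Equiv.coe_addLeft, add_mul, ch_add]
  by_contra h3
  exact h1 (mul_right_cancel₀ h3 (h2.symm.trans (one_mul _).symm))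

noncomputable def hat (X : Finset (M F n)) (η : M F n) : ℂ := ∑ x ∈ X, ch (η * x)

theorem second (X : Finset (M F n)) (ξ : M F n) :
    ∑ A : M F n, ∑ B : M F n, ‖hat X (B * ξ * A)‖ ^ 2 =
      ∑ x ∈ X, ∑ y ∈ X, (Fintype.card (M F n) : ℝ) * #{A : M F n | ξ * A * (x - y) = 0} := by
  apply Complex.ofReal_injective
  push_cast
  have h1 : ∀ η : M F n, ((‖hat X η‖ : ℝ) : ℂ) ^ 2 = ∑ x ∈ X, ∑ y ∈ X, ch (η * (x - y)) := by
    intro η
    rw [← Complex.mul_conj', hat, map_sum, sum_mul_sum]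
    simp only [← ch_neg, ← ch_add, mul_sub, ← sub_eq_add_neg]
  simp only [h1]
  have h2 : ∀ A : M F n, ∑ B : M F n, ∑ x ∈ X, ∑ y ∈ X, ch (B * ξ * A * (x - y)) =
      ∑ x ∈ X, ∑ y ∈ X, if ξ * A * (x - y) = 0 then (Fintype.card (M F n) : ℂ) else 0 := by
    intro A
    rw [sum_comm]
    refine sum_congr rfl fun x _ => ?_
    rw [sum_comm]
    refine sum_congr rfl fun y _ => ?_
    rw [← ch_orth]
    simp only [Matrix.mul_assoc]
  simp only [h2]
  rw [sum_comm]
  refine sum_congr rfl fun x _ => ?_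
  rw [sum_comm]
  refine sum_congr rfl fun y _ => ?_
  rw [← sum_filter, sum_const, nsmul_eq_mul, mul_comm]

theorem pairs (hn : 1 ≤ n) {c : ℝ} (hc : 0 < c) {X : Finset (M F n)}
    (hX : (Fintype.card F : ℝ) ^ (c * n ^ 2) ≤ #X) {k : ℕ} (hk : k ≤ n) (x : M F n) :
    ∑ y ∈ X, ((Fintype.card F : ℝ) ^ (k * (x - y).rank))⁻¹ ≤
      3 * #X * (Fintype.card F : ℝ) ^ (-(k * c * n / 4)) := by
  have hq : (2 : ℝ) ≤ Fintype.card F := by exact_mod_cast q2
  have hn' : (1 : ℝ) ≤ n := by exact_mod_cast hn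
  have hk' : (k : ℝ) ≤ n := by exact_mod_cast hk
  rw [← sum_filter_add_sum_filter_not X fun y => (x - y).rank ≤ ⌊c * n / 4⌋₊]
  have h1 : ∑ y ∈ X with (x - y).rank ≤ ⌊c * n / 4⌋₊, ((Fintype.card F : ℝ) ^ (k * (x - y).rank))⁻¹ ≤
      2 * #X * (Fintype.card F : ℝ) ^ (-(k * c * n / 4)) := by
    refine (sum_le_card_nsmul _ _ 1 fun y _ => inv_le_one_of_one_le₀
      (one_le_pow₀ (by linarith))).trans ?_
    have a : #{y ∈ X | (x - y).rank ≤ ⌊c * n / 4⌋₊} ≤ #{D : M F n | D.rank ≤ ⌊c * n / 4⌋₊} :=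
      card_le_card_of_injOn (fun y => x - y) (fun y hy => by
        simpa using (mem_filter.1 hy).2) fun a _ b _ h => sub_right_injective h
    have b : (#{y ∈ X | (x - y).rank ≤ ⌊c * n / 4⌋₊} : ℝ) ≤
        2 * ((Fintype.card F : ℝ) ^ (2 * n)) ^ ⌊c * n / 4⌋₊ := by
      exact_mod_cast a.trans (rank_le_card hn _)
    rw [nsmul_eq_mul, mul_one]
    refine b.trans ?_
    rw [mul_assoc]
    refine mul_le_mul_of_nonneg_left (le_trans ?_ (mul_le_mul_of_nonneg_right hX (by positivity)))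
      (by norm_num)
    rw [← pow_mul, ← Real.rpow_natCast, ← Real.rpow_add (by linarith)]
    refine Real.rpow_le_rpow_of_exponent_le (by linarith) ?_
    have := Nat.floor_le (by positivity : 0 ≤ c * n / 4)
    push_cast
    nlinarith [mul_le_mul_of_nonneg_left this (by linarith : (0 : ℝ) ≤ 2 * n),
      mul_le_mul_of_nonneg_right hk' (by positivity : 0 ≤ c * n), mul_pos hc (by linarith : (0 : ℝ) < n)]
  have h2 : ∑ y ∈ X with ¬ (x - y).rank ≤ ⌊c * n / 4⌋₊,
      ((Fintype.card F : ℝ) ^ (k * (x - y).rank))⁻¹ ≤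
      #X * (Fintype.card F : ℝ) ^ (-(k * c * n / 4)) := by
    refine (sum_le_card_nsmul _ _ ((Fintype.card F : ℝ) ^ (-(k * c * n / 4))) fun y hy => ?_).trans ?_
    · have a : c * n / 4 < (x - y).rank :=
        (Nat.floor_lt (by positivity)).1 (not_le.1 (mem_filter.1 hy).2)
      rw [← Real.rpow_natCast, ← Real.rpow_neg (by linarith)]
      refine Real.rpow_le_rpow_of_exponent_le (by linarith) ?_
      push_cast
      nlinarith [mul_le_mul_of_nonneg_left a.le (by positivity : (0 : ℝ) ≤ k)]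
    · rw [nsmul_eq_mul]
      exact mul_le_mul_of_nonneg_right (by exact_mod_cast card_filter_le _ _) (by positivity)
  linarith

abbrev G2 (F : Type) [Field F] (n : ℕ) := GL (Fin n) F × GL (Fin n) F

theorem first (hn : 1 ≤ n) {c : ℝ} (hc : 0 < c) {X : Finset (M F n)}
    (hX : (Fintype.card F : ℝ) ^ (c * n ^ 2) ≤ #X) (hb : 48 ≤ (Fintype.card F : ℝ) ^ (c * n / 8))
    {ξ : M F n} (hξ : ξ ≠ 0) : ∑ g : G2 F n, ‖hat X (g.2 * ξ * g.1)‖ ≤
      Fintype.card (G2 F n) * #X * (Fintype.card F : ℝ) ^ (-(ξ.rank * c * n / 16)) := by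
  have hq : (2 : ℝ) ≤ Fintype.card F := by exact_mod_cast q2
  have h1 : ∑ g : G2 F n, ‖hat X (g.2 * ξ * g.1)‖ ^ 2 ≤
      ∑ A : M F n, ∑ B : M F n, ‖hat X (B * ξ * A)‖ ^ 2 := by
    rw [← Fintype.sum_prod_type (f := fun p : M F n × M F n => ‖hat X (p.2 * ξ * p.1)‖ ^ 2)]
    refine le_trans (le_of_eq ?_) (sum_le_sum_of_subset_of_nonneg (subset_univ (univ.image
      fun g : G2 F n => ((g.1 : M F n), (g.2 : M F n)))) fun _ _ _ => sq_nonneg _)
    rw [sum_image]
    intro a _ b _ h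
    exact Prod.ext (Units.ext (congrArg Prod.fst h)) (Units.ext (congrArg Prod.snd h))
  have h2 : ∀ D : M F n, (#{A : M F n | ξ * A * D = 0} : ℝ) ≤
      Fintype.card (M F n) * ((Fintype.card F : ℝ) ^ (ξ.rank * D.rank))⁻¹ := fun D => by
    rw [← div_eq_mul_inv, le_div_iff₀ (by positivity)]
    exact_mod_cast ker_card ξ D
  have h3 : ∑ g : G2 F n, ‖hat X (g.2 * ξ * g.1)‖ ^ 2 ≤ (Fintype.card (M F n) : ℝ) ^ 2 *
      (#X * (3 * #X * (Fintype.card F : ℝ) ^ (-(ξ.rank * c * n / 4)))) := by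
    refine h1.trans ?_
    rw [second, ← nsmul_eq_mul, ← sum_const, mul_sum]
    refine sum_le_sum fun x _ => le_trans ?_ (mul_le_mul_of_nonneg_left
      (pairs hn hc hX (by simpa using ξ.rank_le_width) x) (by positivity))
    rw [mul_sum]
    refine sum_le_sum fun y _ => ?_
    rw [sq, mul_assoc]
    exact mul_le_mul_of_nonneg_left (h2 _) (by positivity)
  have h4 : (Fintype.card (M F n) : ℝ) ^ 2 ≤ 16 * Fintype.card (G2 F n) := by
    rw [Fintype.card_prod]
    push_cast
    nlinarith [pow_le_pow_left₀ (by positivity) (gl_card (F := F) (n := n)) 2]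
  have h5 : 48 * (Fintype.card F : ℝ) ^ (-(ξ.rank * c * n / 4)) ≤
      ((Fintype.card F : ℝ) ^ (-(ξ.rank * c * n / 16))) ^ 2 := by
    refine (mul_le_mul_of_nonneg_right hb (by positivity)).trans ?_
    rw [← Real.rpow_add (by linarith), ← Real.rpow_natCast, ← Real.rpow_mul (by linarith)]
    refine Real.rpow_le_rpow_of_exponent_le (by linarith) ?_
    have : (1 : ℝ) ≤ ξ.rank := by exact_mod_cast rank_pos hξ
    push_cast
    nlinarith [mul_le_mul_of_nonneg_right this (by positivity : 0 ≤ c * n)]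
  refine (abs_le_of_sq_le_sq' ?_ (by positivity)).2
  refine sq_sum_le_card_mul_sum_sq.trans ?_
  rw [card_univ, mul_pow, mul_pow, mul_assoc, sq (Fintype.card (G2 F n) : ℝ), mul_assoc]
  refine mul_le_mul_of_nonneg_left (h3.trans ((mul_le_mul_of_nonneg_right h4
    (by positivity)).trans ?_)) (by positivity)
  have := mul_le_mul_of_nonneg_left h5
    (by positivity : (0 : ℝ) ≤ Fintype.card (G2 F n) * (#X : ℝ) ^ 2)
  linarith

end Pool.Agent.H.MP_725651_al
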