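import Pool.Agent.H.MP_725651_al.A

set_option autoImplicit false
open Finset Matrix
open scoped Classical ComplexConjugate

namespace Pool.Agent.H.MP_725651_al

variable {F : Type} [Field F] [Fintype F] {n : ℕ}

theorem xi_sum (hn : 1 ≤ n) : ∑ ξ ∈ (univ : Finset (M F n)).erase 0,
    ((((Fintype.card F : ℝ) ^ (2 * n)) ^ ξ.rank)⁻¹) ^ 2 < 1 := by
  have hq : (2 : ℝ) ≤ Fintype.card F := by exact_mod_cast q2
  have h0 : (4 : ℝ) ≤ (Fintype.card F : ℝ) ^ (2 * n) :=
    calc (4 : ℝ) = 2 ^ 2 := by norm_num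
      _ ≤ (Fintype.card F : ℝ) ^ 2 := by gcongr
      _ ≤ _ := pow_le_pow_right₀ (by linarith) (by omega)
  rw [← sum_fiberwise_of_maps_to (s := univ.erase 0) (t := (range n).image (· + 1))
    (g := fun ξ : M F n => ξ.rank) fun ξ hξ => by
      have a := rank_pos (ne_of_mem_erase hξ)
      have b : ξ.rank ≤ n := ξ.rank_le_width
      exact mem_image.2 ⟨ξ.rank - 1, mem_range.2 (by omega), by omega⟩,
    sum_image fun a _ b _ h => by simpa using h]
  refine lt_of_le_of_lt (sum_le_sum (g := fun j => 1 / 4 * (1 / 2 : ℝ) ^ j) fun j _ => ?_) ?_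
  · rw [sum_congr rfl fun ξ hξ => by rw [(mem_filter.1 hξ).2], sum_const, nsmul_eq_mul]
    have a : (#{ξ ∈ (univ : Finset (M F n)).erase 0 | ξ.rank = j + 1} : ℝ) ≤
        ((Fintype.card F : ℝ) ^ (2 * n)) ^ (j + 1) := by
      exact_mod_cast (card_le_card (filter_subset_filter _ (erase_subset _ _))).trans (rank_card _)
    refine (mul_le_mul_of_nonneg_right a (by positivity)).trans ?_
    rw [sq, ← mul_assoc, mul_inv_cancel₀ (by positivity), one_mul, ← inv_pow, pow_succ']
    have b : ((Fintype.card F : ℝ) ^ (2 * n))⁻¹ ≤ 1 / 4 := by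
      rw [one_div]; exact inv_anti₀ (by norm_num) h0
    gcongr
    linarith
  · rw [← mul_sum]
    linarith [sum_geometric_two_le n]

theorem big (hn : 1 ≤ n) {c : ℝ} (hc : 0 < c) {μ : ℕ} (hμ : 64 / c ≤ μ)
    (hb : 48 ≤ (Fintype.card F : ℝ) ^ (c * n / 8)) (X : Fin μ → Finset (M F n))
    (hX : ∀ i, (Fintype.card F : ℝ) ^ (c * n ^ 2) ≤ #(X i)) :
    ∃ g : Fin μ → G2 F n, ∀ z : M F n, ∃ x : Fin μ → M F n, (∀ i, x i ∈ X i) ∧
      ∑ i, (g i).1 * x i * (g i).2 = z := by
  have hq : (2 : ℝ) ≤ Fintype.card F := by exact_mod_cast q2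
  have hp : ∀ i, (0 : ℝ) < #(X i) := fun i => lt_of_lt_of_le (by positivity) (hX i)
  have hP : (0 : ℝ) < ∏ i, (#(X i) : ℝ) := prod_pos fun i _ => hp i
  have h1 : ∑ g : Fin μ → G2 F n, ∑ ξ ∈ (univ : Finset (M F n)).erase 0,
      ∏ i, ‖hat (X i) ((g i).2 * ξ * (g i).1)‖ < ∑ _g : Fin μ → G2 F n, ∏ i, (#(X i) : ℝ) := by
    rw [sum_comm, sum_const, card_univ, nsmul_eq_mul]
    have hG : (0 : ℝ) < Fintype.card (Fin μ → G2 F n) := by exact_mod_cast Fintype.card_pos
    refine lt_of_le_of_lt (sum_le_sum fun ξ hξ => ?_) ((mul_sum _ _ _).symm.trans_lt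
      (mul_lt_of_lt_one_right (mul_pos hG hP) (xi_sum (F := F) hn)))
    rw [← Fintype.piFinset_univ, ← prod_univ_sum (fun _ => univ)
      fun i (g : G2 F n) => ‖hat (X i) (g.2 * ξ * g.1)‖]
    refine (prod_le_prod (fun i _ => sum_nonneg fun _ _ => norm_nonneg _) fun i _ =>
      first hn hc (hX i) hb (ne_of_mem_erase hξ)).trans ?_
    rw [prod_mul_distrib, prod_mul_distrib, prod_const, prod_const, card_univ, Fintype.card_fin,
      Fintype.card_fun, Fintype.card_fin, Nat.cast_pow]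
    refine mul_le_mul_of_nonneg_left ?_ (by positivity)
    rw [inv_pow, ← pow_mul, ← pow_mul, ← Real.rpow_natCast, ← Real.rpow_natCast,
      ← Real.rpow_mul (by linarith), ← Real.rpow_neg (by linarith)]
    refine Real.rpow_le_rpow_of_exponent_le (by linarith) ?_
    rw [div_le_iff₀ hc] at hμ
    push_cast
    nlinarith [mul_le_mul_of_nonneg_left hμ (by positivity : (0 : ℝ) ≤ ξ.rank * n)]
  obtain ⟨g, -, hg⟩ := exists_lt_of_sum_lt h1
  refine ⟨g, fun z => ?_⟩
  by_contra! hz
  have h2 : ∑ ξ : M F n, ch (-(ξ * z)) * ∏ i, hat (X i) ((g i).2 * ξ * (g i).1) = 0 := by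
    have : ∀ ξ : M F n, ch (-(ξ * z)) * ∏ i, hat (X i) ((g i).2 * ξ * (g i).1) =
        ∑ x ∈ Fintype.piFinset X, ch (ξ * (∑ i, (g i).1 * x i * (g i).2 - z)) := by
      intro ξ
      unfold hat
      rw [prod_univ_sum, mul_sum]
      refine sum_congr rfl fun x _ => ?_
      rw [mul_sub, sub_eq_neg_add, ch_add, mul_sum, ch_sum]
      congr 1
      refine prod_congr rfl fun i _ => ?_
      rw [Matrix.mul_assoc, Matrix.mul_assoc, ch_comm]
      simp only [Matrix.mul_assoc]
    simp only [this]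
    rw [sum_comm]
    refine sum_eq_zero fun x hx => ?_
    rw [ch_orth, if_neg (sub_ne_zero.2 (hz x (Fintype.mem_piFinset.1 hx)))]
  rw [← add_sum_erase _ _ (mem_univ 0), add_eq_zero_iff_eq_neg] at h2
  have h3 := congrArg norm h2
  simp only [Matrix.mul_zero, Matrix.zero_mul, neg_zero, ch_zero, one_mul, hat, sum_const,
    nsmul_eq_mul, mul_one, norm_prod, Complex.norm_natCast, norm_neg] at h3
  rw [h3] at hg
  refine absurd ((norm_sum_le _ _).trans (le_of_eq ?_)) hg.not_ge
  refine sum_congr rfl fun ξ _ => ?_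
  rw [norm_mul, ch_norm, one_mul, norm_prod]
  rfl

omit [Fintype F] in
theorem span_gl (A : M F n) :
    A ∈ AddSubgroup.closure (Set.range fun g : GL (Fin n) F => (g : M F n)) := by
  set H := AddSubgroup.closure (Set.range fun g : GL (Fin n) F => (g : M F n))
  have hu : ∀ B : M F n, IsUnit B → B ∈ H := fun B ⟨g, hg⟩ => AddSubgroup.subset_closure ⟨g, hg⟩
  have hm : ∀ a ∈ H, ∀ b ∈ H, a * b ∈ H := by
    intro a ha b hb
    induction ha using AddSubgroup.closure_induction with
    | mem x hx =>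
      induction hb using AddSubgroup.closure_induction with
      | mem y hy =>
        obtain ⟨g, rfl⟩ := hx
        obtain ⟨h, rfl⟩ := hy
        exact hu _ (g.isUnit.mul h.isUnit)
      | zero => simp
      | add _ _ _ _ h1 h2 => rw [mul_add]; exact H.add_mem h1 h2
      | neg _ _ h => rw [mul_neg]; exact H.neg_mem h
    | zero => simp
    | add _ _ _ _ h1 h2 => rw [add_mul]; exact H.add_mem h1 h2
    | neg _ _ h => rw [neg_mul]; exact H.neg_mem h
  have h1 : ∀ i j, i ≠ j → ∀ t : F, single i j t ∈ H := fun i j h t => by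
    have := H.sub_mem (hu (transvection i j t) ((isUnit_iff_isUnit_det _).2 (by
      rw [det_transvection_of_ne i j h]; exact isUnit_one))) (hu 1 isUnit_one)
    simpa [transvection] using this
  rw [matrix_eq_sum_single A]
  refine sum_mem fun i _ => sum_mem fun j _ => ?_
  by_cases h : i = j
  · subst h
    by_cases h2 : ∃ k, k ≠ i
    · obtain ⟨k, hk⟩ := h2
      simpa using hm _ (h1 i k hk.symm (A i i)) _ (h1 k i hk 1)
    · push Not at h2
      by_cases h3 : A i i = 0
      · simp [h3]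
      · refine hu _ ((isUnit_iff_isUnit_det _).2 ?_)
        have : single i i (A i i) = diagonal fun _ => A i i := by
          ext a b; rw [h2 a, h2 b]; simp
        rw [this, det_diagonal]
        exact isUnit_iff_ne_zero.2 (prod_ne_zero_iff.2 fun _ _ => h3)
  · exact h1 i j h _

theorem grow {S X : Finset (M F n)} (hS : S.Nonempty) (hS' : S ≠ univ) (hX : 1 < #X) :
    ∃ g : G2 F n, #S < #((S ×ˢ X).image fun p : M F n × M F n => p.1 + g.1 * p.2 * g.2) := by
  by_contra! hc
  obtain ⟨x, hx, y, hy, hxy⟩ := one_lt_card.1 hX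
  have h1 : ∀ g : G2 F n, ∀ u ∈ X, S.image (· + g.1 * u * g.2) =
      (S ×ˢ X).image fun p : M F n × M F n => p.1 + g.1 * p.2 * g.2 := fun g u hu =>
    eq_of_subset_of_card_le (fun z hz => by
      obtain ⟨s, hs, rfl⟩ := mem_image.1 hz
      exact mem_image.2 ⟨(s, u), mem_product.2 ⟨hs, hu⟩, rfl⟩) (by
      rw [card_image_of_injective _ (add_left_injective _)]; exact hc g)
  let H : AddSubgroup (M F n) :=
    { carrier := {d | ∀ s, s + d ∈ S ↔ s ∈ S}
      zero_mem' := by simp
      add_mem' := fun {a b} ha hb s => by rw [← add_assoc, hb, ha]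
      neg_mem' := fun {a} ha s => by rw [← ha]; simp }
  have h2 : ∀ a b : GL (Fin n) F, (a : M F n) * (x - y) * b ∈ H := fun a b s => by
    have e := (h1 (a, b) x hx).trans (h1 (a, b) y hy).symm
    have e2 := Finset.ext_iff.1 e (s + a * x * b)
    simp only [mem_image, add_left_inj, exists_eq_right] at e2
    rw [e2]
    constructor
    · exact fun h => ⟨_, h, by rw [mul_sub, sub_mul]; abel⟩
    · rintro ⟨t, ht, h⟩
      rwa [show s + a * (x - y) * b = t by rw [mul_sub, sub_mul, ← add_sub_assoc, ← h]; abel]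
  have h3 : ∀ A B : M F n, A * (x - y) * B ∈ H := by
    intro A B
    induction span_gl A using AddSubgroup.closure_induction with
    | mem a ha =>
      induction span_gl B using AddSubgroup.closure_induction with
      | mem b hb =>
        obtain ⟨g, rfl⟩ := ha
        obtain ⟨h, rfl⟩ := hb
        exact h2 g h
      | zero => simp
      | add _ _ _ _ h1 h2 => rw [mul_add]; exact H.add_mem h1 h2
      | neg _ _ h => rw [mul_neg]; exact H.neg_mem h
    | zero => simp
    | add _ _ _ _ h1 h2 => rw [add_mul, add_mul]; exact H.add_mem h1 h2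
    | neg _ _ h => rw [neg_mul, neg_mul]; exact H.neg_mem h
  obtain ⟨i, j, hij⟩ : ∃ i j, (x - y) i j ≠ 0 := by
    by_contra! h
    exact hxy (sub_eq_zero.1 (by ext i j; exact h i j))
  have h4 : ∀ A : M F n, A ∈ H := fun A => by
    rw [matrix_eq_sum_single A]
    refine sum_mem fun k _ => sum_mem fun l _ => ?_
    have := h3 (single k i (A k l / (x - y) i j)) (single j l 1)
    rwa [single_mul_mul_single, mul_one, div_mul_cancel₀ _ hij] at this
  obtain ⟨s, hs⟩ := hS
  exact hS' (eq_univ_of_forall fun z => by simpa using (h4 (z - s) s).2 hs)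

theorem small (μ : ℕ) : ∀ X : Fin μ → Finset (M F n), (∀ i, 1 < #(X i)) →
    ∃ g : Fin μ → G2 F n, ∃ S : Finset (M F n), (S = univ ∨ μ < #S) ∧ ∀ z ∈ S,
      ∃ x : Fin μ → M F n, (∀ i, x i ∈ X i) ∧ ∑ i, (g i).1 * x i * (g i).2 = z := by
  induction μ with
  | zero => exact fun X _ => ⟨Fin.elim0, {0}, by simp, fun z hz => ⟨Fin.elim0, by simpa using
      (mem_singleton.1 hz).symm⟩⟩
  | succ μ ih =>
    intro X hX
    obtain ⟨g, S, h1, h2⟩ := ih (fun i => X i.succ) fun i => hX _
    have : ∃ a : G2 F n, ((S ×ˢ X 0).image fun p : M F n × M F n => p.1 + a.1 * p.2 * a.2) = univ ∨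
        μ + 1 < #((S ×ˢ X 0).image fun p : M F n × M F n => p.1 + a.1 * p.2 * a.2) := by
      by_cases h : S = univ
      · obtain ⟨x, hx⟩ := card_pos.1 (zero_lt_one.trans (hX 0))
        refine ⟨1, Or.inl (eq_univ_of_forall fun z => mem_image.2 ⟨(z - x, x), ?_, by simp⟩)⟩
        simp [h, hx]
      · have h3 := h1.resolve_left h
        obtain ⟨a, ha⟩ := grow (card_pos.1 (by omega)) h (hX 0)
        exact ⟨a, Or.inr (by omega)⟩
    obtain ⟨a, ha⟩ := this
    refine ⟨Fin.cons a g, _, ha, fun z hz => ?_⟩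
    obtain ⟨⟨s, u⟩, hp, rfl⟩ := mem_image.1 hz
    obtain ⟨x, h3, h4⟩ := h2 s (mem_product.1 hp).1
    refine ⟨Fin.cons u x, Fin.cases (mem_product.1 hp).2 h3, ?_⟩
    simp [Fin.sum_univ_succ, h4, add_comm]

theorem main {c : ℝ} (hc : 0 < c) : ∃ μ : ℕ, ∀ (F : Type) [Field F] [Fintype F] (n : ℕ), 1 ≤ n →
    ∀ X : Fin μ → Finset (M F n), (∀ i, (Fintype.card F : ℝ) ^ (c * n ^ 2) ≤ #(X i)) →
    ∃ g : Fin μ → G2 F n, ∀ z : M F n, ∃ x : Fin μ → M F n, (∀ i, x i ∈ X i) ∧
      ∑ i, (g i).1 * x i * (g i).2 = z := by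
  obtain ⟨K, hK⟩ := exists_nat_ge ((48 : ℝ) ^ (8 / c))
  refine ⟨max ⌈64 / c⌉₊ (K ^ K), fun F _ _ n hn X hX => ?_⟩
  have hq : (2 : ℝ) ≤ Fintype.card F := by exact_mod_cast q2
  rcases le_or_gt 48 ((Fintype.card F : ℝ) ^ (c * n / 8)) with hb | hb
  · exact big hn hc ((Nat.le_ceil _).trans (by exact_mod_cast le_max_left _ _)) hb X hX
  obtain ⟨g, S, h1, h2⟩ := small _ X fun i => by
    have : (1 : ℝ) < #(X i) := (Real.one_lt_rpow (by linarith) (by positivity)).trans_le (hX i)
    exact_mod_cast this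
  have h3 : Fintype.card F ^ n ≤ K := by
    have := Real.rpow_le_rpow (by positivity) hb.le (by positivity : 0 ≤ 8 / c)
    rw [← Real.rpow_mul (by linarith), show c * n / 8 * (8 / c) = n by field_simp,
      Real.rpow_natCast] at this
    exact_mod_cast this.trans hK
  have h4 : n ≤ K := (Nat.lt_pow_self q2).le.trans h3
  have h5 : Fintype.card (M F n) ≤ K ^ K := by
    rw [card_M, pow_mul]
    exact (Nat.pow_le_pow_left h3 n).trans (Nat.pow_le_pow_right (by omega) h4)
  have h6 := card_le_univ S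
  refine ⟨g, fun z => h2 z ?_⟩
  rw [h1.resolve_right (by have := le_max_right ⌈64 / c⌉₊ (K ^ K); omega)]
  exact mem_univ _

end Pool.Agent.H.MP_725651_al
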